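import Pool.Agent.Y6.K.Stm

/-! Existence of the system of modes (`S_CJ4`). -/

open Set Filter Topology MeasureTheory

set_option autoImplicit false

namespace Pool.Agent.Y79.EK.Cj4

open Pool.Agent.Y5 Pool.Agent.Y5.D Pool.Agent.Y6.K
open Pool.Agent.Y302.Trunc (Lev am sg rho Lev_disjoint)

/-- the first nonzero coordinate is positive -/
def pos (k : Z3) : Prop := 0 < k 0 ∨ (k 0 = 0 ∧ 0 < k 1) ∨ (k 0 = 0 ∧ k 1 = 0 ∧ 0 < k 2)

lemma pos_or {k : Z3} (h : k ≠ 0) : pos k ∨ pos (-k) := by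
  by_contra hc
  rw [not_or] at hc
  obtain ⟨h1, h2⟩ := hc
  unfold pos at h1 h2
  simp only [Pi.neg_apply] at h2
  apply h
  have e0 : k 0 = 0 := by omega
  have e1 : k 1 = 0 := by omega
  have e2 : k 2 = 0 := by omega
  funext i
  fin_cases i <;> simp_all

lemma pos_neg {k : Z3} (h : pos k) (h' : pos (-k)) : False := by
  unfold pos at h h'
  simp only [Pi.neg_apply] at h'
  omega

lemma pos_ne {k : Z3} (h : pos k) : k ≠ 0 := by
  rintro rfl
  unfold pos at h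
  simp at h

lemma vec_neg (k : Z3) : vec (-k) = -vec k := by
  ext i
  simp [vec]

lemma norm_vec_sq (k : Z3) : ‖vec k‖ ^ 2 = ((∑ i, (k i) ^ 2 : ℤ) : ℝ) := by
  rw [EuclideanSpace.norm_sq_eq]
  push_cast
  refine Finset.sum_congr rfl fun i _ => ?_
  simp [vec]

lemma one_le_norm {k : Z3} (h : k ≠ 0) : (1 : ℝ) ≤ ‖vec k‖ ^ 2 := by
  rw [norm_vec_sq]
  have h1 : (0 : ℤ) < ∑ i, (k i) ^ 2 := by
    rcases Function.ne_iff.1 h with ⟨i, hi⟩
    refine Finset.sum_pos' (fun i _ => sq_nonneg _) ⟨i, Finset.mem_univ _, ?_⟩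
    have : k i ≠ 0 := hi
    positivity
  exact_mod_cast h1

lemma pair_eq_sum (V : Fam) {W : Fam} {s : Finset Z3} (h : ∀ k ∉ s, W k = 0) :
    pair V W = ∑ k ∈ s, inner ℝ (V k) (W k) := by
  refine tsum_eq_sum fun k hk => ?_
  rw [h k hk, inner_zero_right]

lemma pair_comm (V W : Fam) : pair V W = pair W V :=
  tsum_congr fun _ => real_inner_comm _ _

/-- the modes of the frequencies which are not in the levels -/
noncomputable def vm (k : Z3) (b : E3) : Fam := fun q =>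
  open Classical in if q = k then (√2)⁻¹ • b else if q = -k then -((√2)⁻¹ • b) else 0

lemma neg_ne {k : Z3} (h : k ≠ 0) : -k ≠ k := by
  intro h1
  apply h
  funext i
  have := congrFun h1 i
  simp only [Pi.neg_apply] at this
  show k i = 0
  omega

lemma vm_self (k : Z3) (b : E3) : vm k b k = (√2)⁻¹ • b := by simp [vm]

lemma vm_neg {k : Z3} (h : k ≠ 0) (b : E3) : vm k b (-k) = -((√2)⁻¹ • b) := by
  simp [vm, neg_ne h]

lemma vm_zero {k q : Z3} (b : E3) (h1 : q ≠ k) (h2 : q ≠ -k) : vm k b q = 0 := by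
  simp [vm, h1, h2]

lemma vm_supp (k : Z3) (b : E3) : ∀ q ∉ ({k, -k} : Finset Z3), vm k b q = 0 := by
  intro q hq
  simp only [Finset.mem_insert, Finset.mem_singleton, not_or] at hq
  exact vm_zero b hq.1 hq.2

lemma vm_OT {k : Z3} (h : k ≠ 0) {b : E3} (hb : inner ℝ (vec k) b = (0 : ℝ)) : OT (vm k b) := by
  constructor
  · intro q
    by_cases h1 : q = k
    · rw [h1, vm_self, vm_neg h]
    by_cases h2 : q = -k
    · rw [h2, neg_neg, vm_self, vm_neg h, neg_neg]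
    · rw [vm_zero b h1 h2, vm_zero b, neg_zero]
      · intro h3; apply h2; rw [← h3, neg_neg]
      · intro h3; apply h1; exact neg_injective h3
  · intro q
    by_cases h1 : q = k
    · rw [h1, vm_self, inner_smul_right, hb, mul_zero]
    by_cases h2 : q = -k
    · rw [h2, vm_neg h, vec_neg, inner_neg_neg, inner_smul_right, hb, mul_zero]
    · rw [vm_zero b h1 h2, inner_zero_right]

lemma vm_pair {V : Fam} (hV : OT V) {k : Z3} (h : k ≠ 0) (b : E3) :
    pair V (vm k b) = √2 * inner ℝ (V k) b := by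
  rw [pair_eq_sum V (vm_supp k b), Finset.sum_pair (neg_ne h).symm, vm_self, vm_neg h, hV.odd,
    inner_neg_neg, inner_smul_right]
  have h2 : (√2 : ℝ) ≠ 0 := by positivity
  have h3 : (√2 : ℝ) * √2 = 2 := Real.mul_self_sqrt (by norm_num)
  field_simp
  rw [pow_two, h3]
  ring

lemma vm_pair_vm {k : Z3} (h : k ≠ 0) {b b' : E3} (hb : inner ℝ (vec k) b = (0 : ℝ)) :
    pair (vm k b) (vm k b') = inner ℝ b b' := by
  rw [vm_pair (vm_OT h hb) h, vm_self, inner_smul_left]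
  have h2 : (√2 : ℝ) ≠ 0 := by positivity
  simp [h2]

abbrev PJ := {k : Z3 // pos k ∧ ∀ n, k ∉ Lev 1 n}
abbrev JJ := (PJ × Bool) ⊕ ((ℕ × (Fin 11 × Bool)) ⊕ ℕ)

def oo : JJ → ℕ
  | Sum.inl (k, _) => 32768 * (∑ i, (k.1 i) ^ 2).toNat
  | Sum.inr (Sum.inl (n, _)) => 32768 * (rho 1 n).toNat
  | Sum.inr (Sum.inr n) => n

def ss : JJ → JJ
  | Sum.inl (k, b) => Sum.inl (k, !b)
  | Sum.inr (Sum.inl (n, i, b)) => Sum.inr (Sum.inl (n, i, !b))
  | Sum.inr (Sum.inr n) => Sum.inr (Sum.inr n)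

noncomputable def tt : JJ → ℝ
  | Sum.inl (_, b) => if b then 1 else -1
  | Sum.inr (Sum.inl (_, _, b)) => if b then 1 else -1
  | Sum.inr (Sum.inr _) => 0

noncomputable def NN : Ix JJ → ℝ
  | Sum.inl n => (rho 1 n : ℝ)
  | Sum.inr (Sum.inl (k, _)) => ‖vec k.1‖ ^ 2
  | Sum.inr (Sum.inr (Sum.inl (n, _))) => (rho 1 n : ℝ)
  | Sum.inr (Sum.inr (Sum.inr n)) => (rho 1 n : ℝ)

noncomputable def ee (bk : Z3 → Bool → E3) (f : ℕ → Fin 11 × Bool → Fam) : Ix JJ → Fam
  | Sum.inl n => Em n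
  | Sum.inr (Sum.inl (k, b)) => vm k.1 (bk k.1 b)
  | Sum.inr (Sum.inr (Sum.inl (n, j))) => f n j
  | Sum.inr (Sum.inr (Sum.inr n)) => Ym n

def blk : Ix JJ → ℕ ⊕ PJ
  | Sum.inl n => Sum.inl n
  | Sum.inr (Sum.inl (k, _)) => Sum.inr k
  | Sum.inr (Sum.inr (Sum.inl (n, _))) => Sum.inl n
  | Sum.inr (Sum.inr (Sum.inr n)) => Sum.inl n

def fs : ℕ ⊕ PJ → Finset Z3
  | Sum.inl n => Lev 1 n
  | Sum.inr k => {k.1, -k.1}

/-- The data. -/
structure Dat (bk : Z3 → Bool → E3) (f : ℕ → Fin 11 × Bool → Fam) : Prop where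
  cj : S_CJ1
  b1 : ∀ k : Z3, k ≠ 0 → ∀ i j, inner ℝ (bk k i) (bk k j) = if i = j then (1 : ℝ) else 0
  b2 : ∀ k : Z3, k ≠ 0 → ∀ i, inner ℝ (vec k) (bk k i) = (0 : ℝ)
  b3 : ∀ k : Z3, k ≠ 0 → ∀ v : E3, inner ℝ (vec k) v = (0 : ℝ) →
    v = ∑ i, (inner ℝ v (bk k i) : ℝ) • bk k i
  f1 : ∀ n j, OT (f n j)
  f2 : ∀ n j, ∀ k ∉ Lev 1 n, f n j k = 0
  f3 : ∀ n i j, pair (f n i) (f n j) = if i = j then 1 else 0
  f4 : ∀ n j, pair (f n j) (Em n) = 0 ∧ pair (f n j) (Ym n) = 0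
  f5 : ∀ n V, OT V → ∀ k ∈ Lev 1 n,
    V k = pair V (Em n) • Em n k + pair V (Ym n) • Ym n k + ∑ j, pair V (f n j) • f n j k

lemma neg_mem_iff (hcj : S_CJ1) {n : ℕ} {k : Z3} : -k ∈ Lev 1 n ↔ k ∈ Lev 1 n := by
  constructor
  · intro h
    have := (hcj.2.1 n).2.1 _ h
    rwa [neg_neg] at this
  · exact (hcj.2.1 n).2.1 _

lemma lev_inj {n m : ℕ} {k : Z3} (h1 : k ∈ Lev 1 n) (h2 : k ∈ Lev 1 m) : n = m :=
  Lev_disjoint one_pos h1 h2

section

variable {bk : Z3 → Bool → E3} {f : ℕ → Fin 11 × Bool → Fam}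

lemma ee_OT (D : Dat bk f) (a : Ix JJ) : OT (ee bk f a) := by
  rcases a with n | ⟨k, b⟩ | ⟨n, j⟩ | n
  · exact (D.cj.2.2.2.2.2.2 n).1
  · exact vm_OT (pos_ne k.2.1) (D.b2 _ (pos_ne k.2.1) b)
  · exact D.f1 n j
  · exact (D.cj.2.2.2.2.2.2 n).2.1

lemma ee_supp (D : Dat bk f) (a : Ix JJ) : ∀ k ∉ fs (blk a), ee bk f a k = 0 := by
  intro q hq
  rcases a with n | ⟨k, b⟩ | ⟨n, j⟩ | n
  · exact ((D.cj.2.2.2.2.2.2 n).2.2.2.2.2 q hq).1
  · exact vm_supp _ _ q hq
  · exact D.f2 n j q hq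
  · exact ((D.cj.2.2.2.2.2.2 n).2.2.2.2.2 q hq).2

lemma mem_fs (D : Dat bk f) {a : Ix JJ} {k : Z3} (h : ee bk f a k ≠ 0) : k ∈ fs (blk a) := by
  by_contra hc
  exact h (ee_supp D a k hc)

lemma fs_inj (hcj : S_CJ1) {b b' : ℕ ⊕ PJ} {k : Z3} (h : k ∈ fs b) (h' : k ∈ fs b') : b = b' := by
  rcases b with n | p <;> rcases b' with m | q
  · have := lev_inj h h'
    rw [this]
  · exfalso
    simp only [fs, Finset.mem_insert, Finset.mem_singleton] at h'
    rcases h' with rfl | rfl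
    · exact q.2.2 n h
    · exact q.2.2 n ((neg_mem_iff hcj).1 h)
  · exfalso
    simp only [fs, Finset.mem_insert, Finset.mem_singleton] at h
    rcases h with rfl | rfl
    · exact p.2.2 m h'
    · exact p.2.2 m ((neg_mem_iff hcj).1 h')
  · simp only [fs, Finset.mem_insert, Finset.mem_singleton] at h h'
    have hp := p.2.1
    have hq := q.2.1
    rcases h with h1 | h1 <;> rcases h' with h2 | h2
    · have : p.1 = q.1 := h1.symm.trans h2
      rw [Subtype.ext this]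
    · exfalso
      have : p.1 = -q.1 := h1.symm.trans h2
      rw [this] at hp
      exact pos_neg hq hp
    · exfalso
      have : -p.1 = q.1 := h1.symm.trans h2
      rw [← this] at hq
      exact pos_neg hp hq
    · have : p.1 = q.1 := neg_injective (h1.symm.trans h2)
      rw [Subtype.ext this]

lemma pair_zero (D : Dat bk f) {a b : Ix JJ} (h : blk a ≠ blk b) :
    pair (ee bk f a) (ee bk f b) = 0 := by
  rw [pair_eq_sum _ (ee_supp D b)]
  refine Finset.sum_eq_zero fun k hk => ?_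
  rw [ee_supp D a k, inner_zero_left]
  intro h'
  exact h (fs_inj D.cj h' hk)

lemma orth (D : Dat bk f) (a b : Ix JJ) :
    (a = b → pair (ee bk f a) (ee bk f b) = 1) ∧ (a ≠ b → pair (ee bk f a) (ee bk f b) = 0) := by
  by_cases hab : blk a = blk b
  swap
  · exact ⟨fun h => absurd (congrArg blk h) hab, fun _ => pair_zero D hab⟩
  have hE : ∀ n, pair (Em n) (Em n) = 1 := fun n => (D.cj.2.2.2.2.2.2 n).2.2.1
  have hY : ∀ n, pair (Ym n) (Ym n) = 1 := fun n => (D.cj.2.2.2.2.2.2 n).2.2.2.1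
  have hEY : ∀ n, pair (Em n) (Ym n) = 0 := fun n => (D.cj.2.2.2.2.2.2 n).2.2.2.2.1
  rcases a with n | ⟨k, i⟩ | ⟨n, i⟩ | n <;> rcases b with m | ⟨q, j⟩ | ⟨m, j⟩ | m <;>
    simp only [blk, Sum.inl.injEq, Sum.inr.injEq, reduceCtorEq] at hab
  · subst hab
    exact ⟨fun _ => hE n, fun h => absurd rfl h⟩
  · subst hab
    refine ⟨fun h => by simp at h, fun _ => ?_⟩
    show pair (Em n) (f n j) = 0
    rw [pair_comm]
    exact (D.f4 n j).1
  · subst hab
    exact ⟨fun h => by simp at h, fun _ => hEY n⟩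
  · subst hab
    have hk := pos_ne k.2.1
    have h1 : pair (vm k.1 (bk k.1 i)) (vm k.1 (bk k.1 j)) = if i = j then (1 : ℝ) else 0 := by
      rw [vm_pair_vm hk (D.b2 _ hk i), D.b1 _ hk]
    refine ⟨fun h => ?_, fun h => ?_⟩
    · have : i = j := by simpa using h
      show pair (vm k.1 (bk k.1 i)) (vm k.1 (bk k.1 j)) = 1
      rw [h1, if_pos this]
    · have : i ≠ j := by
        rintro rfl
        exact h rfl
      show pair (vm k.1 (bk k.1 i)) (vm k.1 (bk k.1 j)) = 0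
      rw [h1, if_neg this]
  · subst hab
    exact ⟨fun h => by simp at h, fun _ => (D.f4 n i).1⟩
  · subst hab
    refine ⟨fun h => ?_, fun h => ?_⟩
    · have : i = j := by simpa using h
      show pair (f n i) (f n j) = 1
      rw [D.f3, if_pos this]
    · have : i ≠ j := by
        rintro rfl
        exact h rfl
      show pair (f n i) (f n j) = 0
      rw [D.f3, if_neg this]
  · subst hab
    exact ⟨fun h => by simp at h, fun _ => (D.f4 n i).2⟩
  · subst hab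
    refine ⟨fun h => by simp at h, fun _ => ?_⟩
    show pair (Ym n) (Em n) = 0
    rw [pair_comm]
    exact hEY n
  · subst hab
    refine ⟨fun h => by simp at h, fun _ => ?_⟩
    show pair (Ym n) (f n j) = 0
    rw [pair_comm]
    exact (D.f4 n j).2
  · subst hab
    exact ⟨fun _ => hY n, fun h => absurd rfl h⟩

noncomputable local instance : DecidableEq (Ix JJ) := Classical.decEq _

/-- the modes of a level -/
noncomputable def ml (n : ℕ) : Finset (Ix JJ) :=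
  insert (Sum.inl n) (insert (Sum.inr (Sum.inr (Sum.inr n)))
    (Finset.univ.image fun j : Fin 11 × Bool => Sum.inr (Sum.inr (Sum.inl (n, j)))))

/-- the two modes of the frequency `k` -/
noncomputable def mp (k : PJ) : Finset (Ix JJ) :=
  Finset.univ.image fun b : Bool => Sum.inr (Sum.inl (k, b))

lemma mem_ml {a : Ix JJ} {n : ℕ} (h : blk a = Sum.inl n) : a ∈ ml n := by
  rcases a with m | ⟨q, j⟩ | ⟨m, j⟩ | m <;>
    simp only [blk, Sum.inl.injEq, reduceCtorEq] at h <;> subst h <;> simp [ml]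

lemma mem_mp {a : Ix JJ} {k : PJ} (h : blk a = Sum.inr k) : a ∈ mp k := by
  rcases a with m | ⟨q, j⟩ | ⟨m, j⟩ | m <;>
    simp only [blk, Sum.inr.injEq, reduceCtorEq] at h
  subst h
  unfold mp
  exact Finset.mem_image.2 ⟨j, Finset.mem_univ _, rfl⟩

lemma cases_k (D : Dat bk f) {k : Z3} (h : k ≠ 0) : ∃ b : ℕ ⊕ PJ, k ∈ fs b := by
  by_cases h1 : ∃ n, k ∈ Lev 1 n
  · obtain ⟨n, hn⟩ := h1
    exact ⟨Sum.inl n, hn⟩
  · push Not at h1
    rcases pos_or h with h2 | h2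
    · exact ⟨Sum.inr ⟨k, h2, h1⟩, by simp [fs]⟩
    · refine ⟨Sum.inr ⟨-k, h2, fun n hn => h1 n ((neg_mem_iff D.cj).1 hn)⟩, by simp [fs]⟩

lemma blk_eq (D : Dat bk f) {a : Ix JJ} {k : Z3} {b : ℕ ⊕ PJ} (hk : k ∈ fs b)
    (h : ee bk f a k ≠ 0) : blk a = b := fs_inj D.cj (mem_fs D h) hk

lemma ml_card (n : ℕ) : (ml n).card ≤ 24 := by
  unfold ml
  refine (Finset.card_insert_le _ _).trans ?_
  have h1 := Finset.card_insert_le (Sum.inr (Sum.inr (Sum.inr n)) : Ix JJ)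
    (Finset.univ.image fun j : Fin 11 × Bool => (Sum.inr (Sum.inr (Sum.inl (n, j))) : Ix JJ))
  have h2 := Finset.card_image_le (s := (Finset.univ : Finset (Fin 11 × Bool)))
    (f := fun j : Fin 11 × Bool => (Sum.inr (Sum.inr (Sum.inl (n, j))) : Ix JJ))
  have h3 : (Finset.univ : Finset (Fin 11 × Bool)).card = 22 := by
    simp
  omega

lemma mp_card (k : PJ) : (mp k).card ≤ 2 := by
  unfold mp
  refine Finset.card_image_le.trans ?_
  simp

lemma recon_lev (D : Dat bk f) {V : Fam} (hV : OT V) {n : ℕ} {k : Z3} (hk : k ∈ Lev 1 n) :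
    V k = ∑' a, pair V (ee bk f a) • ee bk f a k := by
  rw [tsum_eq_sum (s := ml n)]
  · unfold ml
    rw [Finset.sum_insert (by simp), Finset.sum_insert (by simp), Finset.sum_image]
    · rw [D.f5 n V hV k hk, add_assoc]
      rfl
    · intro i _ j _ h
      simpa using h
  · intro a ha
    by_contra hc
    have h1 : ee bk f a k ≠ 0 := by
      intro h
      exact hc (by rw [h, smul_zero])
    exact ha (mem_ml (blk_eq D (b := Sum.inl n) hk h1))

lemma recon_P (D : Dat bk f) {V : Fam} (hV : OT V) (k : PJ) :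
    V k.1 = ∑' a, pair V (ee bk f a) • ee bk f a k.1 := by
  have hk0 := pos_ne k.2.1
  rw [tsum_eq_sum (s := mp k)]
  · unfold mp
    rw [Finset.sum_image]
    · conv_lhs => rw [D.b3 _ hk0 (V k.1) (hV.tan _)]
      refine Finset.sum_congr rfl fun i _ => ?_
      show _ = pair V (vm k.1 (bk k.1 i)) • vm k.1 (bk k.1 i) k.1
      rw [vm_pair hV hk0, vm_self, smul_smul]
      congr 1
      have h2 : (√2 : ℝ) ≠ 0 := by positivity
      field_simp
    · intro i _ j _ h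
      simpa using h
  · intro a ha
    by_contra hc
    have h1 : ee bk f a k.1 ≠ 0 := by
      intro h
      exact hc (by rw [h, smul_zero])
    exact ha (mem_mp (blk_eq D (b := Sum.inr k) (by simp [fs]) h1))

lemma recon_neg (D : Dat bk f) {V : Fam} (hV : OT V) {k : Z3}
    (h : V k = ∑' a, pair V (ee bk f a) • ee bk f a k) :
    V (-k) = ∑' a, pair V (ee bk f a) • ee bk f a (-k) := by
  rw [hV.odd, h, ← tsum_neg]
  refine tsum_congr fun a => ?_
  rw [(ee_OT D a).odd, smul_neg]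

lemma OT_zero {V : Fam} (hV : OT V) : V 0 = 0 := by
  have h := hV.odd 0
  rw [neg_zero] at h
  have h2 : (2 : ℝ) • V 0 = 0 := by
    rw [two_smul]
    nth_rewrite 2 [h]
    exact add_neg_cancel _
  exact (smul_eq_zero.1 h2).resolve_left (by norm_num)

lemma recon (D : Dat bk f) {V : Fam} (hV : OT V) (k : Z3) :
    V k = ∑' a, pair V (ee bk f a) • ee bk f a k := by
  by_cases hk : k = 0
  · subst hk
    rw [OT_zero hV]
    symm
    convert tsum_zero with a
    rw [OT_zero (ee_OT D a), smul_zero]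
  obtain ⟨b, hb⟩ := cases_k D hk
  rcases b with n | p
  · exact recon_lev D hV hb
  · simp only [fs, Finset.mem_insert, Finset.mem_singleton] at hb
    rcases hb with rfl | rfl
    · exact recon_P D hV p
    · exact recon_neg D hV (recon_P D hV p)

lemma rho_one (hcj : S_CJ1) (n : ℕ) : (1 : ℝ) ≤ rho 1 n :=
  (one_le_pow₀ (by norm_num)).trans (hcj.2.2.2.1 n).1

theorem sys (D : Dat bk f) : Sys oo ss tt NN (ee bk f) := by
  have hss : ∀ j, ss (ss j) = j := by
    rintro (⟨k, b⟩ | ⟨n, i, b⟩ | n) <;> simp [ss]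
  refine ⟨⟨ee_OT D, ?_, ?_, orth D, ?_, ?_, fun V hV k => recon D hV k⟩, ?_, ?_, hss, ?_, ?_, ?_⟩
  · intro a k h
    have h1 := mem_fs D h
    rcases a with n | ⟨p, b⟩ | ⟨n, j⟩ | n
    · exact (D.cj.1 n k).1 h1
    · simp only [blk, fs, Finset.mem_insert, Finset.mem_singleton] at h1
      rcases h1 with rfl | rfl
      · rfl
      · show ‖vec (-p.1)‖ ^ 2 = ‖vec p.1‖ ^ 2
        rw [vec_neg, norm_neg]
    · exact (D.cj.1 n k).1 h1
    · exact (D.cj.1 n k).1 h1
  · rintro (⟨k, b⟩ | ⟨n, i, b⟩ | n) <;> rfl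
  · intro a
    have h1 : {k | ee bk f a k ≠ 0} ⊆ (fs (blk a) : Set Z3) := fun k hk => mem_fs D hk
    refine ⟨(Finset.finite_toSet _).subset h1, ?_⟩
    refine (Set.ncard_le_ncard h1 (Finset.finite_toSet _)).trans ?_
    rw [Set.ncard_coe_finset]
    rcases blk a with n | p
    · exact ((D.cj.2.1 n).1).le
    · exact (Finset.card_le_two).trans (by norm_num)
  · intro k
    by_cases hk : k = 0
    · have h1 : {a | ee bk f a k ≠ 0} = ∅ := by
        ext a
        simp only [Set.mem_ofPred_eq, Set.mem_empty_iff_false, iff_false, not_not]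
        rw [hk]
        exact OT_zero (ee_OT D a)
      rw [h1]
      simp
    · obtain ⟨b, hb⟩ := cases_k D hk
      rcases b with n | p
      · have h1 : {a | ee bk f a k ≠ 0} ⊆ (ml n : Set (Ix JJ)) :=
          fun a ha => mem_ml (blk_eq D hb ha)
        refine ⟨(Finset.finite_toSet _).subset h1, ?_⟩
        refine (Set.ncard_le_ncard h1 (Finset.finite_toSet _)).trans ?_
        rw [Set.ncard_coe_finset]
        exact (ml_card n).trans (by norm_num)
      · have h1 : {a | ee bk f a k ≠ 0} ⊆ (mp p : Set (Ix JJ)) :=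
          fun a ha => mem_mp (blk_eq D hb ha)
        refine ⟨(Finset.finite_toSet _).subset h1, ?_⟩
        refine (Set.ncard_le_ncard h1 (Finset.finite_toSet _)).trans ?_
        rw [Set.ncard_coe_finset]
        exact (mp_card p).trans (by norm_num)
  · rintro (n | ⟨k, b⟩ | ⟨n, j⟩ | n)
    · exact rho_one D.cj n
    · exact one_le_norm (pos_ne k.2.1)
    · exact rho_one D.cj n
    · exact rho_one D.cj n
  · intro n
    rfl
  · rintro (⟨k, b⟩ | ⟨n, i, b⟩ | n) <;> rfl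
  · rintro (⟨k, b⟩ | ⟨n, i, b⟩ | n)
    · cases b <;> simp [tt, ss]
    · cases b <;> simp [tt, ss]
    · simp [tt, ss]
  · rintro (⟨k, b⟩ | ⟨n, i, b⟩ | n)
    · left
      refine ⟨by cases b <;> simp [tt], ?_⟩
      show ((32768 * (∑ i, (k.1 i) ^ 2).toNat : ℕ) : ℝ) = 32768 * ‖vec k.1‖ ^ 2
      rw [norm_vec_sq]
      have h1 : (0 : ℤ) ≤ ∑ i, (k.1 i) ^ 2 := Finset.sum_nonneg fun i _ => sq_nonneg _
      have h2 : (((∑ i, (k.1 i) ^ 2).toNat : ℤ)) = ∑ i, (k.1 i) ^ 2 := Int.toNat_of_nonneg h1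
      push_cast
      congr 1
      exact_mod_cast h2
    · left
      refine ⟨by cases b <;> simp [tt], ?_⟩
      show ((32768 * (rho 1 n).toNat : ℕ) : ℝ) = 32768 * (rho 1 n : ℝ)
      have h1 : (0 : ℤ) ≤ rho 1 n := by
        have := rho_one D.cj n
        have h3 : (0 : ℝ) ≤ (rho 1 n : ℝ) := by linarith
        exact_mod_cast h3
      have h2 : (((rho 1 n).toNat : ℤ)) = rho 1 n := Int.toNat_of_nonneg h1
      push_cast
      congr 1
      exact_mod_cast h2
    · right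
      exact ⟨rfl, rfl⟩

end

theorem t_CJ4 : S_CJ4 := by
  intro h1 h3
  classical
  have hb : ∀ k : Z3, ∃ b : Bool → E3, k ≠ 0 →
      (∀ i j, inner ℝ (b i) (b j) = if i = j then (1 : ℝ) else 0) ∧
      (∀ i, inner ℝ (vec k) (b i) = (0 : ℝ)) ∧
      ∀ v : E3, inner ℝ (vec k) v = (0 : ℝ) → v = ∑ i, (inner ℝ v (b i) : ℝ) • b i := by
    intro k
    by_cases hk : k = 0
    · exact ⟨fun _ => 0, fun h => absurd hk h⟩
    · obtain ⟨b, hb⟩ := h3.1 k hk
      exact ⟨b, fun _ => hb⟩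
  choose bk hbk using hb
  have hf : ∀ n : ℕ, ∃ f : Fin 11 × Bool → Fam, (∀ j, OT (f j)) ∧ (∀ j, ∀ k ∉ Lev 1 n, f j k = 0) ∧
      (∀ i j, pair (f i) (f j) = if i = j then 1 else 0) ∧
      (∀ j, pair (f j) (Em n) = 0 ∧ pair (f j) (Ym n) = 0) ∧
      ∀ V, OT V → ∀ k ∈ Lev 1 n,
        V k = pair V (Em n) • Em n k + pair V (Ym n) • Ym n k + ∑ j, pair V (f j) • f j k := by
    intro n
    obtain ⟨c1, c2, c3⟩ := h1.2.1 n
    obtain ⟨d1, d2, d3, d4, d5, d6⟩ := h1.2.2.2.2.2.2 n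
    exact h3.2 (Lev 1 n) (Em n) (Ym n) c1 c2 c3 d1 d2 d6 d3 d4 d5
  choose f hf1 hf2 hf3 hf4 hf5 using hf
  refine ⟨JJ, oo, ss, tt, NN, ee bk f, sys ⟨h1, fun k hk => (hbk k hk).1,
    fun k hk => (hbk k hk).2.1, fun k hk => (hbk k hk).2.2, hf1, hf2, hf3, hf4, hf5⟩⟩

end Pool.Agent.Y79.EK.Cj4
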