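import Pool.Agent.Y6.K.Stm
import Pool.Agent.Y302.Trunc.Datum

/-! The initial velocity (`S_DAT`). -/

open Set Filter Topology MeasureTheory

set_option autoImplicit false

namespace Pool.Agent.Y79.EK

open Pool.Agent.Y5 Pool.Agent.Y5.D Pool.Agent.Y6.K
open Pool.Agent.Y302.Trunc (Lev am Ef amv datum Ef_zero)
open Pool.Agent.H708R2.EulerModes (ph)

lemma ph_eq (k : Pool.Agent.Y5.D.Z3) (y : E3) :
    2 * Real.pi * inner ℝ (vec k) y = ph k (fun i => 2 * Real.pi * y i) := by
  simp only [vec, ph, PiLp.inner_apply, Fin.sum_univ_three, RCLike.inner_apply, conj_trivial]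
  ring

theorem t_DAT : S_DAT := by
  classical
  funext y
  have h1 : fieldOf (Em 0) y = ∑ k ∈ Lev 1 0,
      Real.sin (2 * Real.pi * inner ℝ (vec k) y) • Em 0 k := by
    refine tsum_eq_sum fun k hk => ?_
    have : Em 0 k = 0 := if_neg hk
    rw [this, smul_zero]
  rw [h1]
  have h2 : ∀ i, (∑ k ∈ Lev 1 0, Real.sin (2 * Real.pi * inner ℝ (vec k) y) • Em 0 k : E3) i
      = (√528)⁻¹ * Ef 1 0 (fun i => 2 * Real.pi * y i) i := by
    intro i
    have h3 : ∀ k ∈ Lev 1 0, Real.sin (2 * Real.pi * inner ℝ (vec k) y) • Em 0 k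
        = WithLp.toLp 2 (fun i => Real.sin (ph k (fun i => 2 * Real.pi * y i))
          * ((√528)⁻¹ * (am 1 0 k i : ℝ))) := by
      intro k hk
      have h4 : Em 0 k = (√(nrm (0 % 4)))⁻¹ • ivec (am 1 0 k) := if_pos hk
      rw [h4, ph_eq]
      ext j
      simp [ivec, nrm]
    rw [Finset.sum_congr rfl h3]
    simp only [Ef]
    rw [WithLp.ofLp_sum]
    simp only [Finset.sum_apply, Pi.smul_apply, smul_eq_mul]
    rw [Finset.mul_sum]
    refine Finset.sum_congr rfl fun k _ => ?_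
    show _ = (√528)⁻¹ * (Real.sin (ph k (fun i => 2 * Real.pi * y i)) * (am 1 0 k i : ℝ))
    ring
  have h5 : (√528 : ℝ)⁻¹ * 8 = 2 / √33 := by
    have h6 : (√528 : ℝ) = 4 * √33 := by
      rw [show (528 : ℝ) = 4 ^ 2 * 33 by norm_num, Real.sqrt_mul (by norm_num),
        Real.sqrt_sq (by norm_num)]
    have h7 : (√33 : ℝ) ≠ 0 := by positivity
    rw [h6]
    field_simp
    norm_num
  have key : ∀ i, (∑ k ∈ Lev 1 0, Real.sin (2 * Real.pi * inner ℝ (vec k) y) • Em 0 k : E3) i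
      = u0 y i := by
    intro i
    rw [h2 i, Ef_zero one_pos]
    have e1 : ∀ j, ((1 : ℕ) : ℝ) * (2 * Real.pi * y j) = 2 * Real.pi * y j := by
      intro j; push_cast; ring
    have e2 : ∀ j, 3 * ((1 : ℕ) : ℝ) * (2 * Real.pi * y j) = 6 * Real.pi * y j := by
      intro j; push_cast; ring
    have e3 : u0 y i = (2 / √33) * (3 * Real.sin (2 * Real.pi * y i) *
      (Real.cos (2 * Real.pi * y (i + 1)) * Real.cos (6 * Real.pi * y (i + 2)) +
        Real.cos (6 * Real.pi * y (i + 1)) * Real.cos (2 * Real.pi * y (i + 2)))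
    - 2 * Real.sin (6 * Real.pi * y i) *
      (Real.cos (2 * Real.pi * y (i + 1)) * Real.cos (2 * Real.pi * y (i + 2)))) := by
      simp [u0]
    rw [e3, Pi.smul_apply, smul_eq_mul, ← mul_assoc, h5, datum]
    simp only [e1, e2]
    ring
  ext i
  exact key i

end Pool.Agent.Y79.EK
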